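import Pool.Agent.Y920.JB.Stm3

/-!
# Project JB (helper920): from the group to an open subgroup (helper390)
-/

set_option autoImplicit false

open Topology Filter MeasureTheory Finset

namespace Pool.Agent.Y390.JB

open Pool.Agent.Y920.JB

theorem t_COS2 : S_COS2 := by
  intro G _ _ _ _ _ _ K hK hdec
  obtain ⟨B, hB, hmea, hnull⟩ := hdec
  have hKc : IsClosed (K : Set G) := K.isClosed_of_isOpen hK
  refine ⟨(Subtype.val : K → G) ⁻¹' B, hB.preimage continuous_subtype_val, ?_, ?_⟩
  · obtain ⟨C, hC, hBC, T, _, _, _, ⟨t0⟩, f, hf, hfC⟩ := hmea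
    refine ⟨(Subtype.val : K → G) ⁻¹' C, hC.preimage measurable_subtype_coe,
      fun x hx => hBC hx, ?_⟩
    have hopen : IsOpen {t : T | f t - f t0 ∈ K} := hK.preimage (hf.sub continuous_const)
    have hclosed : IsClosed {t : T | f t - f t0 ∈ K} := hKc.preimage (hf.sub continuous_const)
    refine ⟨{t : T | f t - f t0 ∈ K}, inferInstance, isCompact_iff_compactSpace.1 hclosed.isCompact,
      IsEmbedding.subtypeVal.metrizableSpace, ⟨⟨t0, by simp⟩⟩,
      fun t => ⟨f t.1 - f t0, t.2⟩,
      Continuous.subtype_mk ((hf.comp continuous_subtype_val).sub continuous_const) _, ?_⟩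
    intro k
    have h1 := (hfC ((k : G) - f t0)).preimage_of_isOpenMap
      (f := (Subtype.val : {t : T | f t - f t0 ∈ K} → T)) continuous_subtype_val
      hopen.isOpenMap_subtype_val
    convert h1 using 1
    ext t
    simp only [Set.mem_preimage, AddSubgroup.coe_add]
    have e : f t.1 - f t0 + (k : G) = f t.1 + ((k : G) - f t0) := by abel
    rw [e]
  · obtain ⟨C, hC, hBC, μ, hμ, hμC⟩ := hnull
    refine ⟨(Subtype.val : K → G) ⁻¹' C, hC.preimage measurable_subtype_coe,
      fun x hx => hBC hx, ?_⟩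
    let d : ℕ → G := TopologicalSpace.denseSeq G
    have hd : DenseRange d := TopologicalSpace.denseRange_denseSeq G
    have hex : ∃ n, μ {x | x - d n ∈ K} ≠ 0 := by
      by_contra hcon
      push Not at hcon
      have h1 : (⋃ n, {x | x - d n ∈ K}) = Set.univ := by
        ext x
        simp only [Set.mem_iUnion, Set.mem_univ, iff_true]
        have ho : IsOpen {y : G | x - y ∈ K} := hK.preimage (continuous_const.sub continuous_id)
        obtain ⟨n, hn⟩ := hd.exists_mem_open ho ⟨x, by simp⟩
        exact ⟨n, hn⟩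
      have h2 : μ (⋃ n, {x | x - d n ∈ K}) = 0 := measure_iUnion_null hcon
      rw [h1, measure_univ] at h2
      exact one_ne_zero h2
    obtain ⟨n, hn⟩ := hex
    obtain ⟨g0, hg0⟩ : ∃ g0, g0 = d n := ⟨_, rfl⟩
    rw [← hg0] at hn
    let φ : K → G := fun k => (k : G) + g0
    have hφ : MeasurableEmbedding φ :=
      (Homeomorph.addRight g0).measurableEmbedding.comp (MeasurableEmbedding.subtype_coe hK.measurableSet)
    have himg : φ '' Set.univ = {x | x - g0 ∈ K} := by
      ext x
      constructor
      · rintro ⟨k, -, rfl⟩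
        show (k : G) + g0 - g0 ∈ K
        rw [add_sub_cancel_right]
        exact k.2
      · intro hx
        exact ⟨⟨x - g0, hx⟩, trivial, sub_add_cancel x g0⟩
    refine ⟨(μ {x | x - g0 ∈ K})⁻¹ • μ.comap φ, ⟨?_⟩, fun k => ?_⟩
    · rw [Measure.smul_apply, hφ.comap_apply, himg, smul_eq_mul]
      exact ENNReal.inv_mul_cancel hn (measure_ne_top _ _)
    · rw [Measure.smul_apply, hφ.comap_apply]
      have h1 : μ (φ '' ((fun x => x + k) ⁻¹' ((Subtype.val : K → G) ⁻¹' C))) = 0 := by
        refine measure_mono_null ?_ (hμC ((k : G) - g0))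
        rintro _ ⟨y, hy, rfl⟩
        show (y : G) + g0 + ((k : G) - g0) ∈ C
        have e : (y : G) + g0 + ((k : G) - g0) = (y : G) + (k : G) := by abel
        rw [e]
        exact hy
      rw [h1, smul_zero]

end Pool.Agent.Y390.JB
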